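import Pool.Agent.Q49.MZ.Padic
import Pool.Agent.W425.PZ.Pole
import Pool.Agent.W195.PZ.Null

/-!
# Denef's question at a prime: transfer along the moves
-/

set_option autoImplicit false

namespace Pool.Agent.Q49.MZ

open MvPolynomial Pool.Agent.W206.CU Pool.Agent.Y229.PA Filter
open Pool.Agent.H628R4.TP (IsBFunction)
open Pool.Agent.W427.SMC (igusaZeta)

/-- Denef's question for `f` and the prime `p`: for every pole `T₀` of Igusa's Poincaré series and
every `b` with `b(s) f ^ s = P(s) f ^ (s + 1)`, the number `- log |T₀| / log p` is a root of `b`. -/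
def DenefAt (p : ℕ) {V : Type} (f : MvPolynomial V ℤ) : Prop :=
  ∀ (T₀ : ℂ) (r : ℕ), 0 < r → IsPoleOfOrder (Pool.Agent.W206.CU.poincare p f) T₀ r →
    ∀ b : Polynomial ℂ, IsBFunction (map (Int.castRingHom ℂ) f) b →
      b.eval ((-Real.log ‖T₀‖ / Real.log p : ℝ) : ℂ) = 0

/-- For every prime `p` and every pole `T₀` of the Poincaré series of `F` the number
`- log |T₀| / log p` is `-1` or at most `-N`. -/
def MildP (N : ℕ) {V : Type} (F : MvPolynomial V ℤ) : Prop :=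
  ∀ (p : ℕ), p.Prime → ∀ (T₀ : ℂ) (r : ℕ), 0 < r →
    IsPoleOfOrder (Pool.Agent.W206.CU.poincare p F) T₀ r →
      -Real.log ‖T₀‖ / Real.log p = -1 ∨ -Real.log ‖T₀‖ / Real.log p ≤ -(N : ℝ)

theorem null_any (p : ℕ) [hp : Fact p.Prime] {V : Type} [Fintype V] {F : MvPolynomial V ℤ}
    (hF : F ≠ 0) : Tendsto (fun M => ((dens p F M : ℚ) : ℝ)) atTop (nhds 0) := by
  classical
  set e : MvPolynomial V ℤ ≃ₐ[ℤ] MvPolynomial (Fin (Fintype.card V)) ℤ :=
    renameEquiv ℤ (Fintype.equivFin V) with he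
  have h1 : e F ≠ 0 := by
    intro h
    exact hF ((map_eq_zero_iff e e.injective).1 h)
  have h2 := Pool.Agent.W195.PZ.null (p := p) h1
  refine h2.congr fun M => ?_
  rw [dens_iso]

/-- a pole of the Poincaré series has `t₀ < 0` -/
theorem pole_neg (p : ℕ) [hp : Fact p.Prime] {V : Type} [Fintype V] {f : MvPolynomial V ℤ}
    (hf : f ≠ 0) {T₀ : ℂ} {r : ℕ} (hr : 0 < r)
    (hP : IsPoleOfOrder (Pool.Agent.W206.CU.poincare p f) T₀ r) :
    -Real.log ‖T₀‖ / Real.log p < 0 := by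
  obtain ⟨Z, s₀, hZ, hZi, hZo, hre⟩ := Pool.Agent.W425.PZ.pole_of_poincare p f
    (null_any p hf) hr hP
  rw [← hre]
  exact re_neg_of_pole p f hZi hZo

theorem mildP_of_mild {N : ℕ} {V : Type} [Fintype V] {F : MvPolynomial V ℤ} (hF : F ≠ 0)
    (h : Mild N F) : MildP N F := by
  intro p hp T₀ r hr hP
  have : Fact p.Prime := ⟨hp⟩
  obtain ⟨Z, s₀, hZ, hZi, hZo, hre⟩ := Pool.Agent.W425.PZ.pole_of_poincare p F
    (null_any p hF) hr hP
  rw [← hre]
  exact h p Z hZ hZi s₀ hZo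

theorem log_shift (p : ℕ) [hp : Fact p.Prime] {T₀ : ℂ} (hT : T₀ ≠ 0) (m : ℕ) :
    -Real.log ‖T₀ / ((p : ℂ)⁻¹) ^ m‖ / Real.log p = -Real.log ‖T₀‖ / Real.log p - m := by
  have hp0 : (0 : ℝ) < p := by exact_mod_cast hp.out.pos
  have hlp : Real.log p ≠ 0 := (Real.log_pos (by exact_mod_cast hp.out.one_lt)).ne'
  rw [inv_pow, div_inv_eq_mul, norm_mul, norm_pow, Complex.norm_natCast,
    Real.log_mul (norm_ne_zero_iff.2 hT) (pow_ne_zero _ hp0.ne'), Real.log_pow]
  field_simp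
  ring

/-- **The transfer, for every prime.** -/
theorem denef_of_follow {n : ℕ} {f : MvPolynomial (Fin n) ℤ} (hf : f ≠ 0) {V : Type} [Fintype V]
    {m : ℕ} (hm : 1 ≤ m) {F : MvPolynomial V ℤ} (hfol : Follow f V m F) (p : ℕ)
    [hp : Fact p.Prime] (h : DenefAt p F) : DenefAt p f := by
  intro T₀ r hr hP b hb
  have hp0 : (p : ℂ) ≠ 0 := by exact_mod_cast hp.out.ne_zero
  have hT := pole_ne_zero hr hP
  have hneg := pole_neg p hf hr hP
  have hd : (1 - (p : ℂ)⁻¹) ≠ 0 := by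
    apply sub_ne_zero_of_norm_lt
    rw [norm_inv, Complex.norm_natCast]
    exact inv_lt_one_of_one_lt₀ (by exact_mod_cast hp.out.one_lt)
  obtain ⟨r', hr', hQ⟩ := pole_transfer (inv_ne_zero hp0) (pow_ne_zero m (inv_ne_zero hp0)) hd
    (poincare_eq hfol p) hr hP
  have h1 := h (T₀ / ((p : ℂ)⁻¹) ^ m) r' (by omega) hQ _ (b_follow hfol hb)
  rw [log_shift p hT m] at h1
  set t : ℝ := -Real.log ‖T₀‖ / Real.log p with ht
  have h2 : ((t - m : ℝ) : ℂ) = (t : ℂ) - m := by push_cast; rfl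
  rw [h2] at h1
  refine eval_aux m (fun h3 => ?_) h1
  have h4 := congrArg Complex.re h3
  simp only [Complex.sub_re, Complex.ofReal_re, Complex.natCast_re, Complex.neg_re,
    Complex.one_re] at h4
  have h5 : (1 : ℝ) ≤ m := by exact_mod_cast hm
  linarith

theorem denef_rename {V W : Type} [Finite V] [Finite W] (e : V ≃ W) (p : ℕ)
    {G : MvPolynomial V ℤ} (h : DenefAt p (rename e G)) : DenefAt p G := by
  intro T₀ r hr hP b hb
  refine h T₀ r hr ?_ b ?_
  · have := poincare_iso p (renameEquiv ℤ e) G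
    rw [renameEquiv_apply] at this
    rwa [this]
  · have h1 := isBFunction_iso (renameEquiv ℂ e) hb
    rw [renameEquiv_apply, ← map_rename] at h1
    exact h1

end Pool.Agent.Q49.MZ
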