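import Pool.Agent.W206.CU.Rat

/-!
# The poles of the zeta functions after many moves
-/

set_option autoImplicit false

namespace Pool.Agent.Q49.MZ

open MvPolynomial Pool.Agent.W206.CU Filter Topology
open Pool.Agent.W427.SMC (igusaZeta)

variable (p : ℕ) [hp : Fact p.Prime]

theorem norm_dens_le {V : Type} [Fintype V] (F : MvPolynomial V ℤ) (M : ℕ) :
    ‖((dens p F M : ℚ) : ℂ)‖ ≤ 1 := by
  have e : ((dens p F M : ℚ) : ℂ) = (((dens p F M : ℚ) : ℝ) : ℂ) := by push_cast; rfl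
  rw [e, Complex.norm_real, Real.norm_of_nonneg (by exact_mod_cast dens_nonneg p F M)]
  exact_mod_cast dens_le_one p F M

theorem analyticAt_gen {V : Type} [Fintype V] (F : MvPolynomial V ℤ) {T : ℂ} (hT : ‖T‖ < 1) :
    AnalyticAt ℂ (gen p F) T := by
  obtain ⟨r, hr, hr1⟩ := exists_between hT
  have h0 : 0 ≤ r := (norm_nonneg _).trans hr.le
  have h1 : DifferentiableOn ℂ (fun w => ∑' M : ℕ, ((dens p F M : ℚ) : ℂ) * w ^ M)
      (Metric.ball 0 r) := by
    refine Complex.differentiableOn_tsum_of_summable_norm (u := fun M => r ^ M)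
      (summable_geometric_of_lt_one h0 hr1) (fun M => ?_) Metric.isOpen_ball (fun M w hw => ?_)
    · exact ((differentiable_const _).mul (differentiable_id.pow M)).differentiableOn
    · rw [norm_mul, norm_pow]
      rw [Metric.mem_ball, dist_zero_right] at hw
      calc ‖((dens p F M : ℚ) : ℂ)‖ * ‖w‖ ^ M ≤ 1 * r ^ M :=
            mul_le_mul (norm_dens_le p F M) (pow_le_pow_left₀ (norm_nonneg _) hw.le M)
              (by positivity) zero_le_one
        _ = r ^ M := one_mul _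
  exact h1.analyticAt (Metric.isOpen_ball.mem_nhds (by rwa [Metric.mem_ball, dist_zero_right]))

/-- the continuation of the zeta function of `F` to the half plane `Re s > -m` -/
noncomputable def cont {n : ℕ} (f : MvPolynomial (Fin n) ℤ) (m : ℕ) (s : ℂ) : ℂ :=
  (1 - (1 - (p : ℂ) ^ (-s)) * ((1 - (p : ℂ)⁻¹ * (p : ℂ) ^ (-s))⁻¹ *
    ((p : ℂ)⁻¹ + (1 - (p : ℂ)⁻¹) * gen p f (((p : ℂ)⁻¹) ^ m * (p : ℂ) ^ (-s))))) *
    ((p : ℂ) ^ (-s))⁻¹

theorem norm_shift (m : ℕ) {s : ℂ} (hs : -(m : ℝ) < s.re) :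
    ‖((p : ℂ)⁻¹) ^ m * (p : ℂ) ^ (-s)‖ < 1 := by
  have h := T_add p s m
  rw [← h, norm_T]
  apply Real.rpow_lt_one_of_one_lt_of_neg (by exact_mod_cast hp.out.one_lt)
  rw [Complex.add_re, Complex.natCast_re]
  linarith

theorem cont_eq {n : ℕ} {f : MvPolynomial (Fin n) ℤ} {ρ : Type} [Fintype ρ] {m : ℕ}
    {F : MvPolynomial ρ ℤ} (h : Follow f ρ m F) {s : ℂ} (hs : 0 < s.re) :
    cont p f m s = igusaZeta p F s := by
  have hT := norm_T_lt p hs
  have h1 := gen_igusa p F hs hT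
  have h3 := gen_follow p h hT
  have hp1 : ‖((p : ℂ)⁻¹)‖ < 1 := by
    rw [norm_inv, Complex.norm_natCast]
    exact inv_lt_one_of_one_lt₀ (by exact_mod_cast hp.out.one_lt)
  have hA : 1 - (p : ℂ)⁻¹ * (p : ℂ) ^ (-s) ≠ 0 := by
    apply sub_ne_zero_of_norm_lt
    rw [norm_mul]
    exact lt_of_le_of_lt (mul_le_of_le_one_left (norm_nonneg _) hp1.le) hT
  have hT0 := T_ne_zero p s
  unfold cont
  rw [← h3, inv_mul_cancel_left₀ hA, h1, sub_sub_cancel, mul_comm, inv_mul_cancel_left₀ hT0]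

theorem meromorphicAt_cont {n : ℕ} (f : MvPolynomial (Fin n) ℤ) (m : ℕ) {s : ℂ}
    (hs : -(m : ℝ) < s.re) : MeromorphicAt (cont p f m) s := by
  have hT : AnalyticAt ℂ (fun s : ℂ => (p : ℂ) ^ (-s)) s := analyticAt_T p s
  have hc : AnalyticAt ℂ (fun s : ℂ => ((p : ℂ)⁻¹) ^ m * (p : ℂ) ^ (-s)) s :=
    analyticAt_const.mul hT
  have hg : AnalyticAt ℂ (fun s : ℂ => gen p f (((p : ℂ)⁻¹) ^ m * (p : ℂ) ^ (-s))) s :=
    AnalyticAt.comp (g := gen p f) (analyticAt_gen p f (norm_shift p m hs)) hc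
  have hT' := hT.meromorphicAt
  have hg' := hg.meromorphicAt
  unfold cont
  fun_prop

theorem analyticAt_cont {n : ℕ} (f : MvPolynomial (Fin n) ℤ) (m : ℕ) {s : ℂ}
    (hs : -(m : ℝ) < s.re) (h1 : s.re ≠ -1) : AnalyticAt ℂ (cont p f m) s := by
  have hT : AnalyticAt ℂ (fun s : ℂ => (p : ℂ) ^ (-s)) s := analyticAt_T p s
  have hc : AnalyticAt ℂ (fun s : ℂ => ((p : ℂ)⁻¹) ^ m * (p : ℂ) ^ (-s)) s :=
    analyticAt_const.mul hT
  have hg : AnalyticAt ℂ (fun s : ℂ => gen p f (((p : ℂ)⁻¹) ^ m * (p : ℂ) ^ (-s))) s :=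
    AnalyticAt.comp (g := gen p f) (analyticAt_gen p f (norm_shift p m hs)) hc
  have hne : 1 - (p : ℂ)⁻¹ * (p : ℂ) ^ (-s) ≠ 0 := by
    intro h
    have h2 : ‖(p : ℂ)⁻¹ * (p : ℂ) ^ (-s)‖ = 1 := by
      rw [← sub_eq_zero.1 h, norm_one]
    have hp0 : (0 : ℝ) < p := by exact_mod_cast hp.out.pos
    have hp1 : (1 : ℝ) < p := by exact_mod_cast hp.out.one_lt
    rw [norm_mul, norm_T, norm_inv, Complex.norm_natCast, ← Real.rpow_neg_one,
      ← Real.rpow_add hp0] at h2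
    rw [Real.rpow_def_of_pos hp0, Real.exp_eq_one_iff] at h2
    rcases mul_eq_zero.1 h2 with h3 | h3
    · exact absurd h3 (Real.log_pos hp1).ne'
    · apply h1
      linarith
  have e1 : AnalyticAt ℂ (fun s : ℂ => (1 - (p : ℂ)⁻¹ * (p : ℂ) ^ (-s))⁻¹) s :=
    (analyticAt_const.sub (analyticAt_const.mul hT)).inv hne
  have e2 : AnalyticAt ℂ (fun s : ℂ => ((p : ℂ) ^ (-s))⁻¹) s := hT.inv (T_ne_zero p s)
  exact (analyticAt_const.sub ((analyticAt_const.sub hT).mul (e1.mul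
    (analyticAt_const.add (analyticAt_const.mul hg))))).mul e2

/-- **After `m` moves all poles have the real part `-1` or a real part `≤ -m`.** -/
theorem mild_of_follow {n : ℕ} {f : MvPolynomial (Fin n) ℤ} {ρ : Type} [Fintype ρ] {m : ℕ}
    {F : MvPolynomial ρ ℤ} (h : Follow f ρ m F) {W : ℂ → ℂ} (hW : MeromorphicOn W Set.univ)
    (hWp : ∀ s : ℂ, 0 < s.re → W s = igusaZeta p F s) {s₁ : ℂ}
    (hs : meromorphicOrderAt W s₁ < 0) : s₁.re = -1 ∨ s₁.re ≤ -(m : ℝ) := by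
  by_contra hcon
  push Not at hcon
  obtain ⟨h1, h2⟩ := hcon
  set U : Set ℂ := {s | -(m : ℝ) < s.re} with hU
  have hUc : IsPreconnected U := (convex_halfSpace_re_gt _).isPreconnected
  have hd : MeromorphicOn (W - cont p f m) U := fun s hs' =>
    (hW s (Set.mem_univ _)).sub (meromorphicAt_cont p f m hs')
  have hm1 : (1 : ℂ) ∈ U := by
    show -(m : ℝ) < (1 : ℂ).re
    rw [Complex.one_re]
    have : (0 : ℝ) ≤ m := by positivity
    linarith
  have htop : meromorphicOrderAt (W - cont p f m) 1 = ⊤ := by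
    rw [meromorphicOrderAt_eq_top_iff]
    have ho : {s : ℂ | 0 < s.re} ∈ 𝓝 (1 : ℂ) := by
      refine (isOpen_lt continuous_const Complex.continuous_re).mem_nhds ?_
      show (0 : ℝ) < (1 : ℂ).re
      simp
    filter_upwards [nhdsWithin_le_nhds ho] with s hs'
    rw [Pi.sub_apply, hWp s hs', cont_eq p h hs', sub_self]
  have htop' : meromorphicOrderAt (W - cont p f m) s₁ = ⊤ := by
    by_contra hne
    exact hd.meromorphicOrderAt_ne_top_of_isPreconnected hUc h2 hm1 hne htop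
  rw [meromorphicOrderAt_eq_top_iff] at htop'
  have heq : W =ᶠ[𝓝[≠] s₁] cont p f m := by
    filter_upwards [htop'] with s hs'
    rw [Pi.sub_apply, sub_eq_zero] at hs'
    exact hs'
  rw [meromorphicOrderAt_congr heq] at hs
  exact absurd hs (not_lt.2 (analyticAt_cont p f m h2 h1).meromorphicOrderAt_nonneg)

end Pool.Agent.Q49.MZ
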