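import Pool.Agent.Q49.MZ.Ten
import Pool.Agent.Q49.MZ.Mild
import Pool.Agent.Y229.PA.Cub

/-!
# Reduction of the p-adic strong monodromy conjecture to tensors
-/

set_option autoImplicit false

namespace Pool.Agent.Q49.MZ

open MvPolynomial Pool.Agent.W206.CU Pool.Agent.Y229.PA
open Pool.Agent.H628R4.TP (IsBFunction)
open Pool.Agent.W427.SMC (igusaZeta)

/-- For every prime `p` the real part of every pole of Igusa's zeta function of `F` is `-1` or
at most `-N`. -/
def Mild (N : ℕ) {V : Type} [Fintype V] (F : MvPolynomial V ℤ) : Prop :=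
  ∀ (p : ℕ) [Fact p.Prime] (W : ℂ → ℂ), MeromorphicOn W Set.univ →
    (∀ s : ℂ, 0 < s.re → W s = igusaZeta p F s) →
    ∀ s₁ : ℂ, meromorphicOrderAt W s₁ < 0 → s₁.re = -1 ∨ s₁.re ≤ -(N : ℝ)

theorem mild_follow {n : ℕ} {f : MvPolynomial (Fin n) ℤ} {V : Type} [Fintype V] {m N : ℕ}
    {F : MvPolynomial V ℤ} (h : Follow f V m F) (hN : N ≤ m) : Mild N F := by
  intro p _ W hW hWp s₁ hs
  rcases mild_of_follow p h hW hWp hs with h1 | h1
  · exact Or.inl h1
  · right
    have : (N : ℝ) ≤ m := by exact_mod_cast hN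
    linarith

theorem zetaQ_int (p : ℕ) [hp : Fact p.Prime] {V : Type} [Fintype V] (G : MvPolynomial V ℤ)
    (s : ℂ) : igusaZetaQ p (map (Int.castRingHom ℚ) G) s = igusaZeta p G s := by
  refine igusaZetaQ_eq p (N := 1) ?_ (fun h => hp.out.one_lt.ne' (Nat.dvd_one.1 h)) s
  rw [Nat.cast_one, C_1, one_mul]

theorem strongQ_rename {V W : Type} [Fintype V] [Fintype W] (e : V ≃ W) {G : MvPolynomial V ℤ}
    (h : StrongQ (map (Int.castRingHom ℚ) (rename e G))) :
    StrongQ (map (Int.castRingHom ℚ) G) := by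
  obtain ⟨S, hS⟩ := h
  refine ⟨S, fun p _ hp Z hZ hZp s₀ hs₀ b hb => hS p hp Z hZ (fun s hs => ?_) s₀ hs₀ b ?_⟩
  · rw [hZp s hs, zetaQ_int, zetaQ_int]
    exact (igusa_iso p (renameEquiv ℤ e) G hs).symm
  · have h1 := isBFunction_iso (renameEquiv ℂ e) hb
    rw [renameEquiv_apply] at h1
    rw [← map_rename, ← map_rename] at h1
    exact h1

/-- the conjecture for `G` implies the conjecture for `f` -/
theorem strongQ_of_follow {n : ℕ} {f : MvPolynomial (Fin n) ℚ} {N : ℕ} (hN : 0 < N)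
    {F : MvPolynomial (Fin n) ℤ} (hF : map (Int.castRingHom ℚ) F = C (N : ℚ) * f)
    {V : Type} [Fintype V] {m : ℕ} (hm : 1 ≤ m) {G : MvPolynomial V ℤ} (hfol : Follow F V m G)
    (h : StrongQ (map (Int.castRingHom ℚ) G)) : StrongQ f := by
  have hNC : ((N : ℚ) : ℂ) ≠ 0 := by
    simp only [Rat.cast_natCast, ne_eq, Nat.cast_eq_zero]
    omega
  have hFC : toC F = C ((N : ℚ) : ℂ) * map (algebraMap ℚ ℂ) f := by
    rw [toC_eq, hF, map_mul, map_C]
    rfl
  obtain ⟨S, hS⟩ := h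
  refine ⟨S ∪ N.primeFactors, fun p hp hpS Z hZ hZp s₀ hs₀ b hb => ?_⟩
  rw [Finset.mem_union, not_or] at hpS
  have hpN : ¬ p ∣ N := fun h => hpS.2 (Nat.mem_primeFactors.2 ⟨hp.out, h, by omega⟩)
  have hZp' : ∀ s : ℂ, 0 < s.re → Z s = igusaZeta p F s := fun s hs => by
    rw [hZp s hs, igusaZetaQ_eq p hF hpN]
  have hre := re_neg_of_pole p F hZp' hs₀
  obtain ⟨W, hW, hWp, hWo⟩ := pole_transfer_igusa p hfol hm hZ hZp' hs₀
  have hb1 : IsBFunction (toC F) b := by
    rw [hFC]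
    exact isBFunction_smul hNC hb
  have h1 := hS p hpS.1 W hW (fun s hs => by rw [hWp s hs, zetaQ_int]) (s₀ - m)
    (by rw [hWo]; exact hs₀) _ (by rw [← toC_eq]; exact b_follow hfol hb1)
  rw [re_sub] at h1
  exact eval_aux m (re_ne hre hm) h1

/-- The tensor of a polynomial. -/
theorem exists_tensor {n : ℕ} (f : MvPolynomial (Fin n) ℚ) (hf : f ≠ 0) (N : ℕ) :
    ∃ (k n' : ℕ) (A : Fin k → Option (Fin n') → Option (Fin n') → ℤ), Sign A ∧ tens A ≠ 0 ∧
      Mild N (tens A) ∧ (StrongQ (map (Int.castRingHom ℚ) (tens A)) → StrongQ f) := by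
  obtain ⟨M, F, hM, hF⟩ := exists_integral f
  have hF0 : F ≠ 0 := by
    rintro rfl
    rw [map_zero] at hF
    rcases mul_eq_zero.1 hF.symm with h | h
    · rw [C_eq_zero] at h
      have : M = 0 := by exact_mod_cast h
      omega
    · exact hf h
  obtain ⟨k, n', m, A, hm, hA, hfol⟩ := exists_chain_tens (follow_chain F) F (follow_start F hF0)
    (max N 1)
  refine ⟨k, n', A, hA, fun h0 => hfol.2.2 0 (by rw [h0, map_zero]),
    mild_follow hfol ((le_max_left _ _).trans hm),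
    strongQ_of_follow hM hF ((le_max_right _ _).trans hm) hfol⟩

end Pool.Agent.Q49.MZ
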