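import Pool.Agent.Y229.PA.Dens

/-!
# Reduction of a polynomial to the polynomial of a tensor

By the moves `F ↦ F + (y - a) (t + e)` every polynomial `∑ t_j q_j(x)` with `q_j` of degree at most two
becomes a polynomial which is linear in each of three groups of variables.
-/

set_option autoImplicit false

namespace Pool.Agent.Q49.MZ

open MvPolynomial Pool.Agent.W206.CU Pool.Agent.Y229.PA

/-! ### Stabilisation and shears -/

theorem chain_stab {PP : ∀ (ρ : Type) [Finite ρ], ℕ → MvPolynomial ρ ℤ → Prop} (hc : Chain PP)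
    {ρ₀ : Type} [Finite ρ₀] {g : MvPolynomial ρ₀ ℤ} {m : ℕ} (h : PP ρ₀ m g) (κ : ℕ) :
    PP (ρ₀ ⊕ (Fin κ ⊕ Fin κ)) (m + κ) (stabS g κ) := by
  induction κ with
  | zero =>
    have h1 := hc.iso _ _ (renameEquiv ℤ (Equiv.sumEmpty ρ₀ (Fin 0 ⊕ Fin 0)).symm) m g h
    have e : renameEquiv ℤ (Equiv.sumEmpty ρ₀ (Fin 0 ⊕ Fin 0)).symm g = stabS g 0 := by
      unfold stabS
      rw [renameEquiv_apply, Finset.univ_eq_empty, Finset.sum_empty, add_zero]
      rfl
    rwa [e] at h1
  | succ κ ih =>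
    have h1 := hc.step _ _ _ ih
    have h2 := hc.iso _ _ (renameEquiv ℤ (Equiv.ofBijective _ (up_bij ρ₀ κ))) _ _ h1
    have e : renameEquiv ℤ (Equiv.ofBijective _ (up_bij ρ₀ κ))
        (rename Sum.inl (stabS g κ) + X (Sum.inr 0) * X (Sum.inr 1)) = stabS g (κ + 1) := by
      rw [renameEquiv_apply]
      exact stabS_succ g κ
    rw [e] at h2
    exact h2

/-- the substitution of a shear -/
noncomputable def shv {ρ : Type} {κ : ℕ} (e a : Fin κ → MvPolynomial ρ ℤ) :
    ρ ⊕ (Fin κ ⊕ Fin κ) → MvPolynomial (ρ ⊕ (Fin κ ⊕ Fin κ)) ℤ :=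
  Sum.elim (fun i => X (Sum.inl i)) (Sum.elim
    (fun i => X (Sum.inr (Sum.inl i)) + rename Sum.inl (e i))
    (fun i => X (Sum.inr (Sum.inr i)) - rename Sum.inl (a i)))

theorem aeval_shv_rename {ρ : Type} {κ : ℕ} (e a : Fin κ → MvPolynomial ρ ℤ)
    (h : MvPolynomial ρ ℤ) : aeval (shv e a) (rename Sum.inl h) = rename Sum.inl h := by
  induction h using MvPolynomial.induction_on with
  | C c => rw [rename_C, ← algebraMap_eq, AlgHom.commutes]
  | add p q hp hq => rw [map_add, map_add, hp, hq]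
  | mul_X p i hp =>
    rw [map_mul, map_mul, hp, rename_X, aeval_X]
    rfl

theorem shv_comp {ρ : Type} {κ : ℕ} (e a : Fin κ → MvPolynomial ρ ℤ) :
    (aeval (shv e a)).comp (aeval (shv (-e) (-a))) =
      AlgHom.id ℤ (MvPolynomial (ρ ⊕ (Fin κ ⊕ Fin κ)) ℤ) := by
  apply MvPolynomial.algHom_ext
  rintro (i | i | i)
  · rw [AlgHom.comp_apply, aeval_X]
    show aeval (shv e a) (X (Sum.inl i)) = _
    rw [aeval_X]
    rfl
  · rw [AlgHom.comp_apply, aeval_X]
    show aeval (shv e a) (X (Sum.inr (Sum.inl i)) + rename Sum.inl ((-e) i)) = _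
    rw [map_add, aeval_shv_rename, aeval_X]
    show X (Sum.inr (Sum.inl i)) + rename Sum.inl (e i) + rename Sum.inl ((-e) i) = _
    rw [Pi.neg_apply, map_neg, AlgHom.id_apply, add_neg_cancel_right]
  · rw [AlgHom.comp_apply, aeval_X]
    show aeval (shv e a) (X (Sum.inr (Sum.inr i)) - rename Sum.inl ((-a) i)) = _
    rw [map_sub, aeval_shv_rename, aeval_X]
    show X (Sum.inr (Sum.inr i)) - rename Sum.inl (a i) - rename Sum.inl ((-a) i) = _
    rw [Pi.neg_apply, map_neg, AlgHom.id_apply, sub_neg_eq_add, sub_add_cancel]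

/-- The automorphism `w_i ↦ w_i + e_i`, `z_i ↦ z_i - a_i`. -/
noncomputable def shearK {ρ : Type} {κ : ℕ} (e a : Fin κ → MvPolynomial ρ ℤ) :
    MvPolynomial (ρ ⊕ (Fin κ ⊕ Fin κ)) ℤ ≃ₐ[ℤ] MvPolynomial (ρ ⊕ (Fin κ ⊕ Fin κ)) ℤ :=
  AlgEquiv.ofAlgHom (aeval (shv e a)) (aeval (shv (-e) (-a))) (shv_comp e a)
    (by simpa using shv_comp (-e) (-a))

theorem shearK_stabS {ρ : Type} {κ : ℕ} (e a : Fin κ → MvPolynomial ρ ℤ)
    (g : MvPolynomial ρ ℤ) : shearK e a (stabS g κ) = rename Sum.inl g +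
      ∑ i : Fin κ, (X (Sum.inr (Sum.inl i)) + rename Sum.inl (e i)) *
        (X (Sum.inr (Sum.inr i)) - rename Sum.inl (a i)) := by
  show aeval (shv e a) (stabS g κ) = _
  unfold stabS
  rw [map_add, map_sum, aeval_shv_rename]
  congr 1
  refine Finset.sum_congr rfl fun i _ => ?_
  rw [map_mul, aeval_X, aeval_X]
  rfl

/-! ### Quadratic polynomials -/

theorem exp_cases {n : ℕ} (d : Fin n →₀ ℕ) (hd : d.degree ≤ 2) :
    d = 0 ∨ (∃ b, d = Finsupp.single b 1) ∨
      ∃ b a, b ≤ a ∧ d = Finsupp.single b 1 + Finsupp.single a 1 := by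
  have hcard : (Finsupp.toMultiset d).card ≤ 2 := by
    rw [Finsupp.card_toMultiset]
    exact hd
  have key : ∀ M : Multiset (Fin n), Finsupp.toMultiset d = M → d = Multiset.toFinsupp M := by
    intro M hM
    rw [← hM, Finsupp.toMultiset_toFinsupp]
  rcases Nat.lt_or_ge (Finsupp.toMultiset d).card 1 with h | h
  · left
    have h0 : Finsupp.toMultiset d = 0 := by
      rw [← Multiset.card_eq_zero]
      omega
    rw [key _ h0, map_zero]
  · rcases Nat.lt_or_ge (Finsupp.toMultiset d).card 2 with h2 | h2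
    · right; left
      obtain ⟨b, hb⟩ := Multiset.card_eq_one.1 (by omega : (Finsupp.toMultiset d).card = 1)
      exact ⟨b, by rw [key _ hb, Multiset.toFinsupp_singleton]⟩
    · right; right
      obtain ⟨b, a, hb⟩ := Multiset.card_eq_two.1 (by omega : (Finsupp.toMultiset d).card = 2)
      have h3 : d = Finsupp.single b 1 + Finsupp.single a 1 := by
        rw [key _ hb, Multiset.insert_eq_cons, ← Multiset.singleton_add, map_add,
          Multiset.toFinsupp_singleton, Multiset.toFinsupp_singleton]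
      rcases le_total b a with h4 | h4
      · exact ⟨b, a, h4, h3⟩
      · exact ⟨a, b, h4, by rw [h3, add_comm]⟩

/-- the coefficient of `x_b x_a` for `b ≤ a` -/
noncomputable def qc {n : ℕ} (q : MvPolynomial (Fin n) ℤ) (b a : Fin n) : ℤ :=
  if b ≤ a then coeff (Finsupp.single b 1 + Finsupp.single a 1) q else 0

theorem pair_inj {n : ℕ} {b a b' a' : Fin n} (h : b ≤ a) (h' : b' ≤ a')
    (he : (Finsupp.single b 1 + Finsupp.single a 1 : Fin n →₀ ℕ) =
      Finsupp.single b' 1 + Finsupp.single a' 1) : b = b' ∧ a = a' := by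
  have h1 : ({b, a} : Multiset (Fin n)) = {b', a'} := by
    apply Multiset.toFinsupp.injective
    simp only [Multiset.insert_eq_cons, ← Multiset.singleton_add, map_add,
      Multiset.toFinsupp_singleton]
    exact he
  rw [Multiset.insert_eq_cons, Multiset.insert_eq_cons, Multiset.cons_eq_cons] at h1
  rcases h1 with ⟨h2, h3⟩ | ⟨_, cs, h3, h4⟩
  · exact ⟨h2, Multiset.singleton_inj.1 h3⟩
  · have h5 : a = b' ∧ cs = 0 := by
      have := congrArg Multiset.card h3
      rw [Multiset.card_singleton, Multiset.card_cons] at this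
      have hcs : cs = 0 := Multiset.card_eq_zero.1 (by omega)
      subst hcs
      exact ⟨Multiset.singleton_inj.1 h3, rfl⟩
    have h6 : a' = b := by
      rw [h5.2] at h4
      exact Multiset.singleton_inj.1 h4
    constructor
    · apply le_antisymm
      · rw [← h5.1]; exact h
      · rw [← h6]; exact h'
    · apply le_antisymm
      · rw [h5.1]; exact h'
      · rw [h6]; exact h

theorem quad_decomp {n : ℕ} (q : MvPolynomial (Fin n) ℤ) (hq : q.totalDegree ≤ 2) :
    q = C (coeff 0 q) + ∑ b, C (coeff (Finsupp.single b 1) q) * X b +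
      ∑ b, ∑ a, C (qc q b a) * (X b * X a) := by
  classical
  have hX : ∀ b : Fin n, (X b : MvPolynomial (Fin n) ℤ) = monomial (Finsupp.single b 1) 1 :=
    fun b => rfl
  have hXX : ∀ b a : Fin n, (X b * X a : MvPolynomial (Fin n) ℤ) =
      monomial (Finsupp.single b 1 + Finsupp.single a 1) 1 := fun b a => by
    rw [hX, hX, monomial_mul, one_mul]
  ext d
  rw [coeff_add, coeff_add, coeff_C, coeff_sum, coeff_sum]
  simp only [coeff_sum, coeff_C_mul, hXX]
  simp only [hX, coeff_monomial]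
  by_cases hd : d.degree ≤ 2
  · rcases exp_cases d hd with rfl | ⟨b, rfl⟩ | ⟨b, a, hba, rfl⟩
    · have h1 : ∀ b : Fin n, ¬ (Finsupp.single b 1 : Fin n →₀ ℕ) = 0 := fun b h => by
        have := DFunLike.congr_fun h b
        simp at this
      have h2 : ∀ b a : Fin n, ¬ (Finsupp.single b 1 + Finsupp.single a 1 : Fin n →₀ ℕ) = 0 :=
        fun b a h => by
          have := DFunLike.congr_fun h b
          simp at this
      simp [h1, h2]
    · have h1 : ¬ (0 : Fin n →₀ ℕ) = Finsupp.single b 1 := fun h => by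
        have := DFunLike.congr_fun h b
        simp at this
      have h2 : ∀ b' a' : Fin n, ¬ (Finsupp.single b' 1 + Finsupp.single a' 1 : Fin n →₀ ℕ) =
          Finsupp.single b 1 := fun b' a' h => by
        have := congrArg Finsupp.degree h
        rw [map_add, Finsupp.degree_single, Finsupp.degree_single, Finsupp.degree_single] at this
        omega
      rw [if_neg h1, Finset.sum_eq_single b]
      · simp [h2]
      · intro b' _ hb'
        rw [if_neg, mul_zero]
        intro h
        exact hb' (Finsupp.single_left_injective one_ne_zero h)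
      · simp
    · have h1 : ¬ (0 : Fin n →₀ ℕ) = Finsupp.single b 1 + Finsupp.single a 1 := fun h => by
        have := congrArg Finsupp.degree h
        rw [map_add, Finsupp.degree_single, Finsupp.degree_single, map_zero] at this
        omega
      have h2 : ∀ b' : Fin n, ¬ (Finsupp.single b' 1 : Fin n →₀ ℕ) =
          Finsupp.single b 1 + Finsupp.single a 1 := fun b' h => by
        have := congrArg Finsupp.degree h
        rw [map_add, Finsupp.degree_single, Finsupp.degree_single, Finsupp.degree_single] at this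
        omega
      rw [if_neg h1, Finset.sum_eq_zero (f := fun x => _), zero_add, zero_add,
        Finset.sum_eq_single b]
      · rw [Finset.sum_eq_single a]
        · rw [if_pos rfl, mul_one, qc, if_pos hba]
        · intro a' _ ha'
          by_cases hle : b ≤ a'
          · rw [if_neg, mul_zero]
            intro h
            exact ha' (pair_inj hle hba h).2
          · rw [qc, if_neg hle, zero_mul]
        · simp
      · intro b' _ hb'
        refine Finset.sum_eq_zero fun a' _ => ?_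
        by_cases hle : b' ≤ a'
        · rw [if_neg, mul_zero]
          intro h
          exact hb' (pair_inj hle hba h).1
        · rw [qc, if_neg hle, zero_mul]
      · simp
      · intro b' _
        rw [if_neg (h2 b'), mul_zero]
  · push Not at hd
    have h0 : coeff d q = 0 := by
      by_contra h
      have h1 := le_totalDegree (mem_support_iff.2 h)
      have h2 : (d.sum fun _ e => e) = d.degree := rfl
      omega
    have hd0 : ¬ (0 : Fin n →₀ ℕ) = d := fun h => by
      rw [← h, map_zero] at hd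
      omega
    have hd1 : ∀ b : Fin n, ¬ (Finsupp.single b 1 : Fin n →₀ ℕ) = d := fun b h => by
      rw [← h, Finsupp.degree_single] at hd
      omega
    have hd2 : ∀ b a : Fin n, ¬ (Finsupp.single b 1 + Finsupp.single a 1 : Fin n →₀ ℕ) = d :=
      fun b a h => by
        rw [← h, map_add, Finsupp.degree_single, Finsupp.degree_single] at hd
        omega
    simp [h0, hd0, hd1, hd2]

/-! ### Tensors -/

/-- `x̂_j`: the variable `x_j`, or `1` for the index `none` -/
noncomputable def hat {V : Type} {n : ℕ} (g : Fin n → V) : Option (Fin n) → MvPolynomial V ℤ :=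
  fun o => o.elim 1 fun a => X (g a)

/-- The polynomial `∑ A_{i,j,l} t_i x̂_j ŷ_l` of a tensor `A`, in the variables `t_i`, `i : I`, `x_j` and
`y_l`, where `x̂ = (1, x)`, `ŷ = (1, y)`. -/
noncomputable def tens {I : Type} [Fintype I] {n : ℕ} (A : I → Option (Fin n) → Option (Fin n) → ℤ) :
    MvPolynomial (I ⊕ (Fin n ⊕ Fin n)) ℤ :=
  ∑ i, ∑ j, ∑ l, C (A i j l) * (X (Sum.inl i) * hat (fun a => Sum.inr (Sum.inl a)) j *
    hat (fun a => Sum.inr (Sum.inr a)) l)

theorem rename_tens {I J : Type} [Fintype I] [Fintype J] (e : I ≃ J) {n : ℕ}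
    (A : I → Option (Fin n) → Option (Fin n) → ℤ) :
    rename (Sum.map e id) (tens A) = tens fun j => A (e.symm j) := by
  unfold tens
  rw [map_sum, ← Equiv.sum_comp e]
  refine Finset.sum_congr rfl fun i _ => ?_
  rw [map_sum]
  refine Finset.sum_congr rfl fun j _ => ?_
  rw [map_sum]
  refine Finset.sum_congr rfl fun l _ => ?_
  beta_reduce
  rw [Equiv.symm_apply_apply, map_mul, rename_C, map_mul, map_mul, rename_X]
  congr 2
  · congr 1
    rcases j with _ | j
    · simp [hat]
    · simp [hat]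
  · rcases l with _ | l
    · simp [hat]
    · simp [hat]

/-- the slices: the quadratic polynomials, and the equations `z_a = x_a` -/
noncomputable def slices {n k : ℕ} (q : Fin k → MvPolynomial (Fin n) ℤ) :
    Fin k ⊕ Fin n → Option (Fin n) → Option (Fin n) → ℤ
  | Sum.inl j, none, none => coeff 0 (q j)
  | Sum.inl j, some b, none => coeff (Finsupp.single b 1) (q j)
  | Sum.inl _, none, some _ => 0
  | Sum.inl j, some b, some a => qc (q j) b a
  | Sum.inr _, none, none => 0
  | Sum.inr a, some b, none => if a = b then -1 else 0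
  | Sum.inr a, none, some a' => if a = a' then 1 else 0
  | Sum.inr _, some _, some _ => 0

/-- the renaming of the variables -/
def renV (n k : ℕ) : (Fin n ⊕ Fin k) ⊕ (Fin n ⊕ Fin n) ≃ (Fin k ⊕ Fin n) ⊕ (Fin n ⊕ Fin n) where
  toFun := Sum.elim (Sum.elim (fun b => Sum.inr (Sum.inl b)) fun j => Sum.inl (Sum.inl j))
    (Sum.elim (fun a => Sum.inl (Sum.inr a)) fun a => Sum.inr (Sum.inr a))
  invFun := Sum.elim (Sum.elim (fun j => Sum.inl (Sum.inr j)) fun a => Sum.inr (Sum.inl a))
    (Sum.elim (fun b => Sum.inl (Sum.inl b)) fun a => Sum.inr (Sum.inr a))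
  left_inv := by rintro ((b | j) | (a | a)) <;> rfl
  right_inv := by rintro ((j | a) | (b | a)) <;> rfl

theorem quadSum_slices {n k : ℕ} (q : Fin k → MvPolynomial (Fin n) ℤ)
    (hq : ∀ j, (q j).totalDegree ≤ 2) :
    rename (renV n k) (shearK (fun a => ∑ j, ∑ b, C (qc (q j) b a) *
      (X (Sum.inr j) * X (Sum.inl b))) (fun a => X (Sum.inl a)) (stabS (quadSum q) n)) =
      tens (slices q) := by
  have hF : rename (renV n k) (rename Sum.inl (quadSum q)) =
      ∑ j, X (Sum.inl (Sum.inl j)) * (C (coeff 0 (q j)) +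
        ∑ b, C (coeff (Finsupp.single b 1) (q j)) * X (Sum.inr (Sum.inl b)) +
        ∑ b, ∑ a, C (qc (q j) b a) * (X (Sum.inr (Sum.inl b)) * X (Sum.inr (Sum.inl a)))) := by
    unfold quadSum
    rw [map_sum, map_sum]
    refine Finset.sum_congr rfl fun j _ => ?_
    rw [map_mul, map_mul, rename_X, rename_X, rename_rename, rename_rename]
    congr 1
    conv_lhs => rw [quad_decomp (q j) (hq j)]
    simp only [map_add, map_sum, map_mul, rename_C, rename_X]
    rfl
  rw [shearK_stabS, map_add, hF, map_sum]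
  simp only [map_mul, map_add, map_sub, rename_X, map_sum, rename_C, renV, Equiv.coe_fn_mk,
    Sum.elim_inl, Sum.elim_inr]
  unfold tens
  simp only [Fintype.sum_sum_type, Fintype.sum_option, slices, hat, Option.elim_none,
    Option.elim_some, mul_one, map_zero, zero_mul, add_zero, zero_add, Finset.sum_const_zero]
  have t3 : ∀ g : Fin n → Fin k → Fin n → MvPolynomial ((Fin k ⊕ Fin n) ⊕ (Fin n ⊕ Fin n)) ℤ,
      ∑ x, ∑ j, ∑ b, g x j b = ∑ j, ∑ b, ∑ x, g x j b := by
    intro g
    rw [Finset.sum_comm]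
    exact Finset.sum_congr rfl fun j _ => Finset.sum_comm
  have e1 : ∀ x : Fin n, (∑ x_1, C (if x = x_1 then 1 else 0) *
      (X (Sum.inl (Sum.inr x)) * X (Sum.inr (Sum.inr x_1))) :
        MvPolynomial ((Fin k ⊕ Fin n) ⊕ (Fin n ⊕ Fin n)) ℤ) =
      X (Sum.inl (Sum.inr x)) * X (Sum.inr (Sum.inr x)) := by
    intro x
    rw [Finset.sum_eq_single x]
    · rw [if_pos rfl, map_one, one_mul]
    · intro y _ hy
      rw [if_neg (fun h => hy h.symm), map_zero, zero_mul]
    · simp
  have e2 : ∀ x : Fin n, (∑ x_1, C (if x = x_1 then -1 else 0) *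
      (X (Sum.inl (Sum.inr x)) * X (Sum.inr (Sum.inl x_1))) :
        MvPolynomial ((Fin k ⊕ Fin n) ⊕ (Fin n ⊕ Fin n)) ℤ) =
      - (X (Sum.inl (Sum.inr x)) * X (Sum.inr (Sum.inl x))) := by
    intro x
    rw [Finset.sum_eq_single x]
    · rw [if_pos rfl, map_neg, map_one, neg_mul, one_mul]
    · intro y _ hy
      rw [if_neg (fun h => hy h.symm), map_zero, zero_mul]
    · simp
  simp only [e1, e2, mul_add, add_mul, mul_sub, Finset.mul_sum, Finset.sum_mul,
    Finset.sum_add_distrib, Finset.sum_sub_distrib, Finset.sum_neg_distrib, t3]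
  have c1 : (∑ i : Fin k, X (Sum.inl (Sum.inl i)) * C (coeff 0 (q i)) :
      MvPolynomial ((Fin k ⊕ Fin n) ⊕ (Fin n ⊕ Fin n)) ℤ) =
      ∑ x, C (coeff 0 (q x)) * X (Sum.inl (Sum.inl x)) :=
    Finset.sum_congr rfl fun i _ => mul_comm _ _
  have c2 : (∑ i : Fin k, ∑ b : Fin n, X (Sum.inl (Sum.inl i)) *
      (C (coeff (Finsupp.single b 1) (q i)) * X (Sum.inr (Sum.inl b))) :
      MvPolynomial ((Fin k ⊕ Fin n) ⊕ (Fin n ⊕ Fin n)) ℤ) =
      ∑ x, ∑ b, C (coeff (Finsupp.single b 1) (q x)) *
        (X (Sum.inl (Sum.inl x)) * X (Sum.inr (Sum.inl b))) :=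
    Finset.sum_congr rfl fun i _ => Finset.sum_congr rfl fun b _ => by ring
  have c3 : (∑ i : Fin k, ∑ b : Fin n, ∑ a : Fin n, X (Sum.inl (Sum.inl i)) *
      (C (qc (q i) b a) * (X (Sum.inr (Sum.inl b)) * X (Sum.inr (Sum.inl a)))) :
      MvPolynomial ((Fin k ⊕ Fin n) ⊕ (Fin n ⊕ Fin n)) ℤ) =
      ∑ j, ∑ b, ∑ x, C (qc (q j) b x) * (X (Sum.inl (Sum.inl j)) * X (Sum.inr (Sum.inl b))) *
        X (Sum.inr (Sum.inl x)) :=
    Finset.sum_congr rfl fun i _ => Finset.sum_congr rfl fun b _ =>
      Finset.sum_congr rfl fun a _ => by ring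
  have c4 : (∑ j : Fin k, ∑ b : Fin n, ∑ x : Fin n, C (qc (q j) b x) *
      (X (Sum.inl (Sum.inl j)) * X (Sum.inr (Sum.inl b))) * X (Sum.inr (Sum.inr x)) :
      MvPolynomial ((Fin k ⊕ Fin n) ⊕ (Fin n ⊕ Fin n)) ℤ) =
      ∑ x, ∑ b, ∑ a, C (qc (q x) b a) *
        (X (Sum.inl (Sum.inl x)) * X (Sum.inr (Sum.inl b)) * X (Sum.inr (Sum.inr a))) :=
    Finset.sum_congr rfl fun i _ => Finset.sum_congr rfl fun b _ =>
      Finset.sum_congr rfl fun a _ => by ring
  rw [c1, c2, c3, c4]
  ring

/-- the entries are `0`, `1` or `-1` -/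
def Sign {I : Type} {n : ℕ} (A : I → Option (Fin n) → Option (Fin n) → ℤ) : Prop :=
  ∀ i j l, A i j l = 0 ∨ A i j l = 1 ∨ A i j l = -1

theorem slices_sign {n k : ℕ} (q : Fin k → MvPolynomial (Fin n) ℤ)
    (h : ∀ j d, (q j).coeff d = 0 ∨ (q j).coeff d = 1 ∨ (q j).coeff d = -1) : Sign (slices q) := by
  rintro (j | a) (_ | b) (_ | c)
  · exact h j 0
  · left; rfl
  · exact h j _
  · simp only [slices, qc]
    split_ifs
    · exact h j _
    · left; rfl
  · left; rfl
  · simp only [slices]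
    split_ifs
    · right; left; rfl
    · left; rfl
  · simp only [slices]
    split_ifs
    · right; right; rfl
    · left; rfl
  · left; rfl

theorem chain_tens {PP : ∀ (ρ : Type) [Finite ρ], ℕ → MvPolynomial ρ ℤ → Prop} (hc : Chain PP)
    {n k m : ℕ} {q : Fin k → MvPolynomial (Fin n) ℤ} (hq : ∀ j, (q j).totalDegree ≤ 2)
    (hco : ∀ j d, (q j).coeff d = 0 ∨ (q j).coeff d = 1 ∨ (q j).coeff d = -1)
    (h : PP (Fin n ⊕ Fin k) m (quadSum q)) :
    ∃ A : Fin (k + n) → Option (Fin n) → Option (Fin n) → ℤ, Sign A ∧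
      PP (Fin (k + n) ⊕ (Fin n ⊕ Fin n)) (m + n) (tens A) := by
  refine ⟨fun i => slices q (finSumFinEquiv.symm i), fun i => slices_sign q hco _, ?_⟩
  have h1 := chain_stab hc h n
  have h2 := hc.iso _ _ (shearK (fun a => ∑ j, ∑ b, C (qc (q j) b a) *
      (X (Sum.inr j) * X (Sum.inl b))) (fun a => X (Sum.inl a))) _ _ h1
  have h3 := hc.iso _ _ (renameEquiv ℤ (renV n k)) _ _ h2
  rw [renameEquiv_apply, quadSum_slices q hq] at h3
  have h4 := hc.iso _ _ (renameEquiv ℤ (Equiv.sumCongr (finSumFinEquiv (m := k) (n := n))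
    (Equiv.refl (Fin n ⊕ Fin n)))) _ _ h3
  rw [renameEquiv_apply] at h4
  have e : ⇑(Equiv.sumCongr (finSumFinEquiv (m := k) (n := n)) (Equiv.refl (Fin n ⊕ Fin n))) =
      Sum.map (finSumFinEquiv (m := k) (n := n)) id := rfl
  rw [e, rename_tens] at h4
  exact h4

/-- **The reduction principle.** A property which is preserved by the moves and holds for `u f` holds
for the polynomial of a tensor with entries `0`, `1`, `-1`, after a number of moves which may be
chosen arbitrarily large. -/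
theorem exists_chain_tens {PP : ∀ (ρ : Type) [Finite ρ], ℕ → MvPolynomial ρ ℤ → Prop}
    (hc : Chain PP) {n : ℕ} (f : MvPolynomial (Fin n) ℤ)
    (h : PP (Fin n ⊕ Unit) 0 (X (Sum.inr ()) * rename Sum.inl f)) (N : ℕ) :
    ∃ (k n' m : ℕ) (A : Fin k → Option (Fin n') → Option (Fin n') → ℤ), N ≤ m ∧ Sign A ∧
      PP (Fin k ⊕ (Fin n' ⊕ Fin n')) m (tens A) := by
  obtain ⟨n', k, m, q, hm, h1, h2, h3⟩ := hc.main f h N
  obtain ⟨A, hA, h4⟩ := chain_tens hc h1 h2 h3
  exact ⟨k + n', n', m + n', A, by omega, hA, h4⟩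

end Pool.Agent.Q49.MZ
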